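import Pool.Agent.helper4.QS.Spec
import Pool.Agent.helper35.CM.MEC

/-! # QS, module BOC: Herglotz-Bochner theorem on the lattice -/

open scoped BigOperators ComplexOrder ComplexConjugate Topology

namespace Pool.Agent.QS

open Pool.Agent.helper86.CM Filter MeasureTheory

noncomputable section

/-- the torus -/
abbrev BOC_T := UnitAddTorus (Fin 1 ⊕ Fin 1)

/-- the density -/
def BOC_p (F : Lat 1 → ℂ) (R : ℕ) (y : BOC_T) : ℂ :=
  ((box1 R).card : ℂ)⁻¹ *
    ∑ n ∈ box1 R, ∑ m ∈ box1 R, F (n - m) * UnitAddTorus.mFourier (m - n) y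

theorem BOC_pos (R : ℕ) : 0 < (box1 R).card := by
  rw [Finset.card_pos]
  exact ⟨0, by simp [box1]⟩

theorem BOC_sum (R : ℕ) (g : Lat 1 → ℂ) :
    ∑ i : Fin (box1 R).card, g (((box1 R).equivFin.symm i : box1 R) : Lat 1) =
      ∑ n ∈ box1 R, g n := by
  rw [← Finset.sum_coe_sort (box1 R) g]
  exact Equiv.sum_comp (box1 R).equivFin.symm (fun i : box1 R => g i)

theorem BOC_nonneg (F : Lat 1 → ℂ) (hF : ∀ (m : ℕ) (x : Fin m → Lat 1),
    (Matrix.of fun i j : Fin m => F (x j - x i)).PosSemidef) (R : ℕ) (y : BOC_T) :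
    0 ≤ BOC_p F R y := by
  classical
  have h := (hF (box1 R).card
    (fun i => (((box1 R).equivFin.symm i : box1 R) : Lat 1))).dotProduct_mulVec_nonneg
    (fun i => UnitAddTorus.mFourier (-(((box1 R).equivFin.symm i : box1 R) : Lat 1)) y)
  have h2 : ∑ n ∈ box1 R, ∑ m ∈ box1 R, F (n - m) * UnitAddTorus.mFourier (m - n) y =
      star (fun i : Fin (box1 R).card =>
        UnitAddTorus.mFourier (-(((box1 R).equivFin.symm i : box1 R) : Lat 1)) y) ⬝ᵥ
      ((Matrix.of fun i j : Fin (box1 R).card =>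
        F ((((box1 R).equivFin.symm j : box1 R) : Lat 1) -
          (((box1 R).equivFin.symm i : box1 R) : Lat 1))).mulVec
        (fun i : Fin (box1 R).card =>
          UnitAddTorus.mFourier (-(((box1 R).equivFin.symm i : box1 R) : Lat 1)) y)) := by
    simp only [dotProduct, Matrix.mulVec, Matrix.of_apply, Pi.star_apply]
    rw [Finset.sum_comm]
    rw [← BOC_sum R (fun m => ∑ n ∈ box1 R, F (n - m) * UnitAddTorus.mFourier (m - n) y)]
    refine Finset.sum_congr rfl fun i _ => ?_
    rw [← BOC_sum R (fun n => F (n - (((box1 R).equivFin.symm i : box1 R) : Lat 1)) *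
      UnitAddTorus.mFourier ((((box1 R).equivFin.symm i : box1 R) : Lat 1) - n) y)]
    rw [Finset.mul_sum]
    refine Finset.sum_congr rfl fun j _ => ?_
    have h3 : star (UnitAddTorus.mFourier
        (-(((box1 R).equivFin.symm i : box1 R) : Lat 1)) y) =
        UnitAddTorus.mFourier (((box1 R).equivFin.symm i : box1 R) : Lat 1) y := by
      rw [UnitAddTorus.mFourier_neg]
      exact star_star _
    rw [h3, sub_eq_add_neg (((box1 R).equivFin.symm i : box1 R) : Lat 1),
      UnitAddTorus.mFourier_add]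
    ring
  unfold BOC_p
  rw [h2]
  refine mul_nonneg ?_ h
  rw [← Complex.ofReal_natCast, ← Complex.ofReal_inv]
  exact Complex.zero_le_real.mpr (by positivity)

theorem BOC_cont (F : Lat 1 → ℂ) (R : ℕ) : Continuous (BOC_p F R) := by
  unfold BOC_p
  refine continuous_const.mul (continuous_finsetSum _ fun n _ => continuous_finsetSum _
    fun m _ => continuous_const.mul (UnitAddTorus.mFourier (m - n)).continuous)

theorem BOC_intg {g : BOC_T → ℂ} (hg : Continuous g) :
    Integrable g (ME_H (Fin 1 ⊕ Fin 1)) := by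
  have hc : CompactSpace BOC_T := inferInstance
  obtain ⟨C, hC⟩ := (isCompact_range hg).isBounded.exists_norm_le
  exact Integrable.of_bound hg.aestronglyMeasurable C
    (Filter.Eventually.of_forall fun y => hC _ ⟨y, rfl⟩)

theorem BOC_int (F : Lat 1 → ℂ) (R : ℕ) (k : Lat 1) :
    ∫ y, BOC_p F R y * UnitAddTorus.mFourier k y ∂(ME_H (Fin 1 ⊕ Fin 1)) =
      F k * ((((box1 R).filter fun m => m + k ∈ box1 R).card : ℂ) / (box1 R).card) := by
  classical
  have h1 : ∀ y, BOC_p F R y * UnitAddTorus.mFourier k y = ((box1 R).card : ℂ)⁻¹ *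
      ∑ n ∈ box1 R, ∑ m ∈ box1 R, F (n - m) * UnitAddTorus.mFourier (m - n + k) y := by
    intro y
    unfold BOC_p
    rw [mul_assoc, Finset.sum_mul]
    congr 1
    refine Finset.sum_congr rfl fun n _ => ?_
    rw [Finset.sum_mul]
    refine Finset.sum_congr rfl fun m _ => ?_
    rw [UnitAddTorus.mFourier_add]
    ring
  simp only [h1]
  rw [integral_const_mul, integral_finsetSum]
  swap
  · intro n _
    exact BOC_intg (continuous_finsetSum _
      fun m _ => continuous_const.mul (UnitAddTorus.mFourier (m - n + k)).continuous)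
  have h2 : ∀ n ∈ box1 R, ∫ y, ∑ m ∈ box1 R, F (n - m) * UnitAddTorus.mFourier (m - n + k) y
      ∂(ME_H (Fin 1 ⊕ Fin 1)) = ∑ m ∈ box1 R, F (n - m) * (if m - n + k = 0 then 1 else 0) := by
    intro n _
    rw [integral_finsetSum]
    · refine Finset.sum_congr rfl fun m _ => ?_
      rw [integral_const_mul, ME_haar]
    · intro m _
      exact BOC_intg (continuous_const.mul (UnitAddTorus.mFourier (m - n + k)).continuous)
  rw [Finset.sum_congr rfl h2, Finset.sum_comm]
  have h3 : ∀ m ∈ box1 R, ∑ n ∈ box1 R, F (n - m) * (if m - n + k = 0 then (1 : ℂ) else 0) =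
      if m + k ∈ box1 R then F k else 0 := by
    intro m _
    have h4 : ∀ n ∈ box1 R, F (n - m) * (if m - n + k = 0 then (1 : ℂ) else 0) =
        if n = m + k then F k else 0 := by
      intro n _
      by_cases h : n = m + k
      · subst h
        simp
      · have h' : ¬ (m - n + k = 0) := by
          intro h0
          apply h
          have : m + k - n = 0 := by rw [← h0]; abel
          exact (sub_eq_zero.mp this).symm
        simp [h, h']
    rw [Finset.sum_congr rfl h4, Finset.sum_ite_eq']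
  rw [Finset.sum_congr rfl h3, ← Finset.sum_filter, Finset.sum_const, nsmul_eq_mul]
  field_simp

theorem BOC_card (R : ℕ) : (box1 R).card = (2 * R + 1) ^ 2 := by
  unfold box1
  rw [Fintype.card_piFinset]
  simp only [Int.card_Icc, Finset.prod_const, Finset.card_univ, Fintype.card_sum,
    Fintype.card_fin]
  congr 1
  omega

theorem BOC_ratio (k : Lat 1) :
    Tendsto (fun R : ℕ => ((((box1 R).filter fun m => m + k ∈ box1 R).card : ℝ) /
      (box1 R).card)) atTop (𝓝 1) := by
  classical
  set K : ℕ := ∑ i, (k i).natAbs with hK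
  have hk : ∀ i, |k i| ≤ K := by
    intro i
    have := Finset.single_le_sum (f := fun i => (k i).natAbs) (fun i _ => Nat.zero_le _)
      (Finset.mem_univ i)
    rw [← hK] at this
    have h2 : ((k i).natAbs : ℤ) ≤ K := by exact_mod_cast this
    rwa [Int.natCast_natAbs] at h2
  have hlim : Tendsto (fun R : ℕ => (1 - 2 * (K : ℝ) / (2 * (R : ℝ) + 1)) ^ 2) atTop (𝓝 1) := by
    have h0 : Tendsto (fun R : ℕ => 2 * (K : ℝ) / (2 * (R : ℝ) + 1)) atTop (𝓝 0) := by
      refine Tendsto.div_atTop tendsto_const_nhds ?_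
      refine tendsto_atTop_add_const_right _ _ ?_
      exact (tendsto_natCast_atTop_atTop).const_mul_atTop (by norm_num)
    have h1 := ((tendsto_const_nhds (x := (1 : ℝ))).sub h0).pow 2
    simpa using h1
  refine tendsto_of_tendsto_of_tendsto_of_le_of_le' hlim tendsto_const_nhds ?_ ?_
  · filter_upwards [eventually_ge_atTop K] with R hR
    have hsub : box1 (R - K) ⊆ (box1 R).filter fun m => m + k ∈ box1 R := by
      intro m hm
      unfold box1 at hm ⊢
      rw [Fintype.mem_piFinset] at hm
      rw [Finset.mem_filter, Fintype.mem_piFinset, Fintype.mem_piFinset]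
      refine ⟨fun i => ?_, fun i => ?_⟩
      · have h1 := hm i
        rw [Finset.mem_Icc] at h1 ⊢
        push_cast [Nat.cast_sub hR] at h1
        constructor <;> omega
      · have h1 := hm i
        have h2 := abs_le.mp (hk i)
        rw [Finset.mem_Icc] at h1 ⊢
        rw [Pi.add_apply]
        push_cast [Nat.cast_sub hR] at h1
        constructor <;> omega
    have hc := Finset.card_le_card hsub
    rw [BOC_card] at hc
    rw [BOC_card R]
    have hc' : ((2 * ((R : ℝ) - K) + 1) ^ 2) ≤
        (((box1 R).filter fun m => m + k ∈ box1 R).card : ℝ) := by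
      have : (((2 * (R - K) + 1) ^ 2 : ℕ) : ℝ) ≤
        (((box1 R).filter fun m => m + k ∈ box1 R).card : ℝ) := by exact_mod_cast hc
      push_cast [Nat.cast_sub hR] at this
      exact this
    rw [le_div_iff₀ (by positivity)]
    refine le_trans (le_of_eq ?_) hc'
    push_cast
    have h2 : (2 * (R : ℝ) + 1) ≠ 0 := by positivity
    field_simp
    ring
  · refine Eventually.of_forall fun R => ?_
    have hp : (0 : ℝ) < (box1 R).card := by exact_mod_cast BOC_pos R
    rw [div_le_one hp]
    exact_mod_cast Finset.card_filter_le _ _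

theorem BOC : BOC_stmt := by
  classical
  intro F h1 hF
  set S : Set (Lat 1 → ℂ) := {F : Lat 1 → ℂ |
    ∃ μ : Measure (UnitAddTorus (Fin 1 ⊕ Fin 1)), IsProbabilityMeasure μ ∧ ∀ n : Lat 1,
      ∫ y, UnitAddTorus.mFourier n y ∂μ = F n} with hS
  have hclosed : IsClosed S := MEC_closed (Fin 1 ⊕ Fin 1)
  suffices h : F ∈ S from h
  set FR : ℕ → Lat 1 → ℂ := fun R k =>
    F k * ((((box1 R).filter fun m => m + k ∈ box1 R).card : ℂ) / (box1 R).card) with hFR
  have hlim : Tendsto FR atTop (𝓝 F) := by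
    rw [tendsto_pi_nhds]
    intro k
    have h2 : Tendsto (fun R : ℕ => (((((box1 R).filter fun m => m + k ∈ box1 R).card : ℝ) /
      (box1 R).card : ℝ) : ℂ)) atTop (𝓝 ((1 : ℝ) : ℂ)) :=
      (Complex.continuous_ofReal.tendsto 1).comp (BOC_ratio k)
    have h3 := h2.const_mul (F k)
    simpa using h3
  refine hclosed.mem_of_tendsto hlim (Eventually.of_forall fun R => ?_)
  set p : BOC_T → ℝ := fun y => (BOC_p F R y).re with hp
  have hpc : Continuous p := Complex.continuous_re.comp (BOC_cont F R)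
  have hpos : ∀ y, 0 ≤ p y := fun y => (Complex.le_def.mp (BOC_nonneg F hF R y)).1
  have hpe : ∀ y, BOC_p F R y = (p y : ℂ) := by
    intro y
    apply Complex.ext
    · simp [hp]
    · rw [Complex.ofReal_im]
      exact (Complex.le_def.mp (BOC_nonneg F hF R y)).2.symm
  have hpi : Integrable p (ME_H (Fin 1 ⊕ Fin 1)) := (BOC_intg (BOC_cont F R)).re
  have hint : ∀ k : Lat 1, ∫ y, UnitAddTorus.mFourier k y
      ∂((ME_H (Fin 1 ⊕ Fin 1)).withDensity fun y => ENNReal.ofReal (p y)) = FR R k := by
    intro k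
    rw [integral_withDensity_eq_integral_toReal_smul (hpc.measurable.ennreal_ofReal)
      (Eventually.of_forall fun y => ENNReal.ofReal_lt_top)]
    have h2 : ∀ y, (ENNReal.ofReal (p y)).toReal • (UnitAddTorus.mFourier k y : ℂ) =
        BOC_p F R y * UnitAddTorus.mFourier k y := by
      intro y
      rw [ENNReal.toReal_ofReal (hpos y), hpe y, Complex.real_smul]
    simp only [h2]
    exact BOC_int F R k
  refine ⟨(ME_H (Fin 1 ⊕ Fin 1)).withDensity fun y => ENNReal.ofReal (p y), ⟨?_⟩, hint⟩
  rw [withDensity_apply _ MeasurableSet.univ, Measure.restrict_univ,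
    ← ofReal_integral_eq_lintegral_ofReal hpi (Eventually.of_forall hpos)]
  have h4 := BOC_int F R 0
  have h5 : ∀ y, BOC_p F R y * UnitAddTorus.mFourier (0 : Lat 1) y = (p y : ℂ) := by
    intro y
    rw [UnitAddTorus.mFourier_zero, hpe y]
    simp
  simp only [h5] at h4
  have h45 : ∫ y, (p y : ℂ) ∂(ME_H (Fin 1 ⊕ Fin 1)) =
      ((∫ y, p y ∂(ME_H (Fin 1 ⊕ Fin 1)) : ℝ) : ℂ) := integral_ofReal
  rw [h45] at h4
  have hne : ((box1 R).card : ℂ) ≠ 0 := by
    have := BOC_pos R
    exact_mod_cast this.ne'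
  have h6 : ((box1 R).filter fun m => m + (0 : Lat 1) ∈ box1 R) = box1 R := by
    refine Finset.filter_true_of_mem fun m hm => ?_
    rwa [add_zero]
  rw [h6, h1, one_mul, div_self hne] at h4
  have h7 : ∫ y, p y ∂(ME_H (Fin 1 ⊕ Fin 1)) = 1 := by exact_mod_cast h4
  rw [h7, ENNReal.ofReal_one]

end

end Pool.Agent.QS
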