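import Pool.Agent.helper32.QS.Spec

set_option autoImplicit false

open scoped BigOperators commutatorElement

namespace QS

/-- A nontrivial finite solvable group has a nontrivial normal abelian subgroup of prime
exponent. -/
theorem PR1_min (S : Type) [Group S] [Finite S] (hS : Group.IsSolvable S) (hne : Nontrivial S) :
    ∃ (q : ℕ) (T : Subgroup S), q.Prime ∧ T.Normal ∧ T ≠ ⊥ ∧ (∀ x ∈ T, ∀ y ∈ T, x * y = y * x) ∧
      ∀ x ∈ T, x ^ q = 1 := by
  classical
  have hex : ∃ n, derivedSeries S n = ⊥ := hS.solvable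
  set m := Nat.find hex with hm
  have hm0 : m ≠ 0 := by
    intro h
    have h2 := Nat.find_spec hex
    rw [← hm, h, derivedSeries_zero] at h2
    exact absurd h2 top_ne_bot
  obtain ⟨k, hk⟩ := Nat.exists_eq_succ_of_ne_zero hm0
  set A := derivedSeries S k with hA
  have hAn : A.Normal := derivedSeries_normal S k
  have hAne : A ≠ ⊥ := Nat.find_min hex (by omega)
  have hAcomm : ⁅A, A⁆ = ⊥ := by
    have h2 := Nat.find_spec hex
    rw [← hm, hk, derivedSeries_succ] at h2
    exact h2
  have hcom : ∀ x ∈ A, ∀ y ∈ A, x * y = y * x := by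
    intro x hx y hy
    have h2 : ⁅x, y⁆ ∈ ⁅A, A⁆ := Subgroup.commutator_mem_commutator hx hy
    rw [hAcomm, Subgroup.mem_bot] at h2
    exact commutatorElement_eq_one_iff_mul_comm.mp h2
  have hcard : Nat.card A ≠ 1 := fun h => hAne (Subgroup.card_eq_one.mp h)
  obtain ⟨q, hq, hqd⟩ := Nat.exists_prime_and_dvd hcard
  have hF : Fact q.Prime := ⟨hq⟩
  obtain ⟨g, hg⟩ := exists_prime_orderOf_dvd_card' q hqd
  let T : Subgroup S :=
    { carrier := {x | x ∈ A ∧ x ^ q = 1}
      one_mem' := ⟨A.one_mem, one_pow _⟩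
      mul_mem' := by
        rintro a b ⟨ha, ha'⟩ ⟨hb, hb'⟩
        refine ⟨A.mul_mem ha hb, ?_⟩
        have hc : Commute a b := hcom a ha b hb
        rw [hc.mul_pow, ha', hb', one_mul]
      inv_mem' := by
        rintro a ⟨ha, ha'⟩
        refine ⟨A.inv_mem ha, ?_⟩
        rw [inv_pow, ha', inv_one] }
  refine ⟨q, T, hq, ⟨?_⟩, ?_, ?_, ?_⟩
  · rintro n ⟨hn, hn'⟩ x
    refine ⟨hAn.conj_mem n hn x, ?_⟩
    rw [conj_pow, hn', mul_one, mul_inv_cancel]
  · intro h
    have hgT : (g : S) ∈ T := by
      refine ⟨g.2, ?_⟩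
      have h3 : g ^ q = 1 := by rw [← hg]; exact pow_orderOf_eq_one g
      have h4 := congrArg (fun y : A => (y : S)) h3
      simpa using h4
    rw [h, Subgroup.mem_bot] at hgT
    have hg1 : g = 1 := Subtype.ext hgT
    rw [hg1, orderOf_one] at hg
    exact hq.one_lt.ne hg
  · rintro x ⟨hx, -⟩ y ⟨hy, -⟩
    exact hcom x hx y hy
  · rintro x ⟨-, hx⟩
    exact hx

/-- The number of additive endomorphisms of an elementary abelian group of order `q ^ a`. -/
theorem PR1_end (V : Type) [AddCommGroup V] [Finite V] (q a : ℕ) (hq : q.Prime)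
    (hV : ∀ v : V, q • v = 0) (hc : Nat.card V = q ^ a) :
    Nat.card (V →+ V) ≤ (q ^ a) ^ a := by
  have hF : Fact q.Prime := ⟨hq⟩
  obtain ⟨hM⟩ : Nonempty (Module (ZMod q) V) := ⟨AddCommGroup.zmodModule hV⟩
  have hfin : Module.Finite (ZMod q) V := Module.Finite.of_finite
  have h1 : Nat.card V = q ^ Module.finrank (ZMod q) V := by
    rw [Module.natCard_eq_pow_finrank (K := ZMod q), Nat.card_zmod]
  rw [hc] at h1
  have h2 : a = Module.finrank (ZMod q) V := Nat.pow_right_injective hq.two_le h1
  have h3 : Nat.card (V →ₗ[ZMod q] V) = q ^ (a * a) := by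
    rw [Module.natCard_eq_pow_finrank (K := ZMod q), Nat.card_zmod, Module.finrank_linearMap, ← h2]
  have h4 : Nat.card (V →+ V) ≤ Nat.card (V →ₗ[ZMod q] V) := by
    have hfl : Finite (V →ₗ[ZMod q] V) := by
      refine Nat.finite_of_card_ne_zero ?_
      rw [h3]
      exact pow_ne_zero _ hq.ne_zero
    refine Nat.card_le_card_of_injective (fun f => AddMonoidHom.toZModLinearMap q f) ?_
    intro f g hfg
    ext v
    have := congrArg (fun h : V →ₗ[ZMod q] V => h v) hfg
    simpa using this
  rw [h3, pow_mul] at h4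
  exact h4

theorem PR1 : PR1_stmt := by
  intro S Ω _ _ _ _ _ hS hfa h2
  classical
  -- two points
  have hnt : Nontrivial Ω := by
    rw [← Finite.one_lt_card_iff_nontrivial]
    omega
  obtain ⟨ω₀⟩ : Nonempty Ω := inferInstance
  have hSne : Nontrivial S := by
    obtain ⟨α, β, hab⟩ := hnt.exists_pair_ne
    obtain ⟨g, hg⟩ := MulAction.exists_smul_eq S α β
    refine ⟨⟨g, 1, ?_⟩⟩
    rintro rfl
    rw [one_smul] at hg
    exact hab hg
  obtain ⟨q, T, hq, hTn, hTne, hTc, hTq⟩ := PR1_min S hS hSne
  -- transitivity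
  have hTt : MulAction.IsPretransitive T Ω := by
    refine MulAction.IsQuasiPreprimitive.isPretransitive_of_normal (G := S) (N := T) ?_
    intro h
    apply hTne
    rw [Subgroup.eq_bot_iff_forall]
    intro x hx
    apply hfa
    intro ω
    have h3 : ω ∈ MulAction.fixedPoints T Ω := by rw [h]; trivial
    exact h3 ⟨x, hx⟩
  have hfree : ∀ x ∈ T, ∀ ω : Ω, x • ω = ω → x = 1 := by
    intro x hx ω hω
    apply hfa
    intro β
    obtain ⟨⟨s, hs⟩, hsβ⟩ := MulAction.exists_smul_eq T ω β
    have hsβ' : s • ω = β := hsβ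
    rw [← hsβ', ← mul_smul, hTc x hx s hs, mul_smul, hω]
  -- regular
  have hbij : ∀ ω : Ω, Function.Bijective (fun t : T => (t : S) • ω) := by
    intro ω
    constructor
    · intro s t hst
      have h3 : ((t : S)⁻¹ * (s : S)) • ω = ω := by
        rw [mul_smul]
        have hst' : (s : S) • ω = (t : S) • ω := hst
        rw [hst', inv_smul_smul]
      have h4 := hfree _ (T.mul_mem (T.inv_mem t.2) s.2) ω h3
      apply Subtype.ext
      exact (inv_mul_eq_one.mp h4).symm
    · intro β
      obtain ⟨t, ht⟩ := MulAction.exists_smul_eq T ω β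
      exact ⟨t, ht⟩
  have hcard : Nat.card Ω = Nat.card T := (Nat.card_congr (Equiv.ofBijective _ (hbij ω₀))).symm
  have hF : Fact q.Prime := ⟨hq⟩
  have hpg : IsPGroup q T := by
    intro g
    refine ⟨1, ?_⟩
    apply Subtype.ext
    rw [pow_one]
    simpa using hTq g g.2
  obtain ⟨a, ha⟩ := IsPGroup.iff_card.mp hpg
  have ha1 : 1 ≤ a := by
    rcases Nat.eq_zero_or_pos a with h | h
    · rw [h, pow_zero] at ha
      omega
    · exact h
  have hΩ : Nat.card Ω = q ^ a := hcard.trans ha
  refine ⟨q, a, hq, ha1, hΩ, ?_, ?_⟩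
  · -- order of S
    have h5 : Nat.card (MulAction.stabilizer S ω₀) * Nat.card Ω = Nat.card S := by
      rw [← MulAction.index_stabilizer_of_transitive S ω₀]
      exact Subgroup.card_mul_index _
    have h6 : Nat.card (MulAction.stabilizer S ω₀) ≤ (q ^ a) ^ a := by
      let _ : CommGroup T := { (inferInstance : Group T) with
        mul_comm := fun x y => Subtype.ext (hTc x x.2 y y.2) }
      have h7 : Nat.card (Additive T →+ Additive T) ≤ (q ^ a) ^ a := by
        refine PR1_end (Additive T) q a hq ?_ ?_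
        · intro v
          apply Additive.toMul.injective
          apply Subtype.ext
          simpa using hTq (v.toMul : T) (v.toMul : T).2
        · rw [← ha]
          exact Nat.card_congr Additive.toMul
      have hfin : Finite (Additive T →+ Additive T) := by
        exact Finite.of_injective (fun f : Additive T →+ Additive T => (f : Additive T → Additive T))
          DFunLike.coe_injective
      refine le_trans ?_ h7
      let cj : S → (T →* T) := fun s =>
        { toFun := fun t => ⟨s * t * s⁻¹, hTn.conj_mem t t.2 s⟩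
          map_one' := by apply Subtype.ext; simp
          map_mul' := by
            intro x y
            apply Subtype.ext
            simp [mul_assoc] }
      refine Nat.card_le_card_of_injective
        (fun s : MulAction.stabilizer S ω₀ => MonoidHom.toAdditive (cj s)) ?_
      intro s t hst
      have h8 : cj s = cj t := MonoidHom.toAdditive.injective hst
      have h9 : ∀ x ∈ T, (s : S) * x * (s : S)⁻¹ = (t : S) * x * (t : S)⁻¹ := by
        intro x hx
        have := congrArg (fun f : T →* T => ((f ⟨x, hx⟩ : T) : S)) h8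
        exact this
      apply Subtype.ext
      have h10 : (t : S)⁻¹ * (s : S) = 1 := by
        apply hfa
        intro β
        obtain ⟨⟨x, hx⟩, hxβ⟩ := MulAction.exists_smul_eq T ω₀ β
        have hxβ' : x • ω₀ = β := hxβ
        have hs0 : (s : S) • ω₀ = ω₀ := s.2
        have ht0 : (t : S) • ω₀ = ω₀ := t.2
        have h11 : (s : S) • x • ω₀ = (t : S) • x • ω₀ := by
          have e1 : (s : S) • x • ω₀ = ((s : S) * x * (s : S)⁻¹) • ω₀ := by
            rw [mul_smul, mul_smul]
            have : (s : S)⁻¹ • ω₀ = ω₀ := by rw [inv_smul_eq_iff, hs0]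
            rw [this]
          have e2 : (t : S) • x • ω₀ = ((t : S) * x * (t : S)⁻¹) • ω₀ := by
            rw [mul_smul, mul_smul]
            have : (t : S)⁻¹ • ω₀ = ω₀ := by rw [inv_smul_eq_iff, ht0]
            rw [this]
          rw [e1, e2, h9 x hx]
        rw [← hxβ', mul_smul, h11, inv_smul_smul]
      exact (inv_mul_eq_one.mp h10).symm
    calc Nat.card S = Nat.card (MulAction.stabilizer S ω₀) * Nat.card Ω := h5.symm
      _ ≤ (q ^ a) ^ a * q ^ a := by rw [hΩ]; exact Nat.mul_le_mul_right _ h6
      _ = (q ^ a) ^ (a + 1) := (pow_succ _ _).symm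
  · -- fixed points
    rintro p x hp hxp hx1 ⟨ω, hω⟩
    have hFp : Fact p.Prime := ⟨hp⟩
    let C : Subgroup S := T ⊓ Subgroup.centralizer {x}
    have hCT : C ≤ T := inf_le_left
    have hfx : fx Ω x = Nat.card C := by
      symm
      refine Nat.card_congr (Equiv.ofBijective
        (fun c : C => (⟨(c : S) • ω, ?_⟩ : {ω : Ω // x • ω = ω})) ?_)
      · have hc : (c : S) ∈ Subgroup.centralizer ({x} : Set S) := c.2.2
        rw [Subgroup.mem_centralizer_singleton_iff] at hc
        rw [← mul_smul, ← hc, mul_smul, hω]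
      · constructor
        · intro c d hcd
          have h3 : (c : S) • ω = (d : S) • ω := congrArg Subtype.val hcd
          have h4 := (hbij ω).1 (a₁ := ⟨c, c.2.1⟩) (a₂ := ⟨d, d.2.1⟩) h3
          exact Subtype.ext (congrArg (fun y : T => (y : S)) h4)
        · rintro ⟨β, hβ⟩
          obtain ⟨⟨t, ht⟩, htβ⟩ := (hbij ω).2 β
          have htβ' : t • ω = β := htβ
          have h3 : x * t * x⁻¹ ∈ T := hTn.conj_mem t ht x
          have h4 : (x * t * x⁻¹) • ω = t • ω := by
            have : x⁻¹ • ω = ω := by rw [inv_smul_eq_iff, hω]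
            rw [mul_smul, mul_smul, this, htβ', hβ]
          have h5 := (hbij ω).1 (a₁ := ⟨x * t * x⁻¹, h3⟩) (a₂ := ⟨t, ht⟩) h4
          have h6 : x * t * x⁻¹ = t := congrArg Subtype.val h5
          have h7 : t ∈ Subgroup.centralizer ({x} : Set S) := by
            rw [Subgroup.mem_centralizer_singleton_iff]
            exact (mul_inv_eq_iff_eq_mul.mp h6).symm
          exact ⟨⟨t, ht, h7⟩, Subtype.ext htβ'⟩
    have hmul : fx Ω x * C.relIndex T = q ^ a := by
      rw [hfx, ← ha]
      rw [mul_comm]
      have h9 := Subgroup.relIndex_mul_relIndex (⊥ : Subgroup S) C T bot_le hCT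
      rw [Subgroup.relIndex_bot_left, Subgroup.relIndex_bot_left, mul_comm] at h9
      exact h9
    refine ⟨C.relIndex T, ?_, hmul, ?_⟩
    · -- 1 < t
      have h0 : C.relIndex T ≠ 0 := by
        intro h
        rw [h, mul_zero] at hmul
        exact pow_ne_zero a hq.ne_zero hmul.symm
      have h1 : C.relIndex T ≠ 1 := by
        intro h
        have h3 : T ≤ C := Subgroup.relIndex_eq_one.mp h
        apply hx1
        apply hfa
        intro β
        obtain ⟨⟨t, ht⟩, htβ⟩ := (hbij ω).2 β
        have htβ' : t • ω = β := htβ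
        have hc : t ∈ Subgroup.centralizer ({x} : Set S) := (h3 ht).2
        rw [Subgroup.mem_centralizer_singleton_iff] at hc
        rw [← htβ', ← mul_smul, ← hc, mul_smul, hω]
      omega
    · intro hpq
      have hpz : IsPGroup p (Subgroup.zpowers x) := by
        rintro ⟨y, hy⟩
        refine ⟨1, ?_⟩
        obtain ⟨i, rfl⟩ := Subgroup.mem_zpowers_iff.mp hy
        apply Subtype.ext
        rw [pow_one]
        push_cast
        rw [← zpow_natCast, ← zpow_mul, mul_comm, zpow_mul, zpow_natCast, hxp, one_zpow]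
      have hmod := hpz.card_modEq_card_fixedPoints Ω
      have hfp : Nat.card (MulAction.fixedPoints (Subgroup.zpowers x) Ω) = fx Ω x := by
        refine Nat.card_congr (Equiv.subtypeEquivRight ?_)
        intro β
        constructor
        · intro h
          exact h ⟨x, Subgroup.mem_zpowers x⟩
        · rintro h ⟨y, hy⟩
          have h3 : Subgroup.zpowers x ≤ MulAction.stabilizer S β := by
            rw [Subgroup.zpowers_le]
            exact h
          exact h3 hy
      rw [hfp, hΩ, ← hmul] at hmod
      have hcop : Nat.Coprime p (fx Ω x) := by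
        have hd : fx Ω x ∣ q ^ a := Dvd.intro _ hmul
        exact Nat.Coprime.coprime_dvd_right hd
          (Nat.Coprime.pow_right a ((Nat.coprime_primes hp hq).mpr hpq))
      have h3 : fx Ω x * C.relIndex T ≡ fx Ω x * 1 [MOD p] := by rw [mul_one]; exact hmod
      have h4 : C.relIndex T ≡ 1 [MOD p] := Nat.ModEq.cancel_left_of_coprime hcop h3
      have h5 : C.relIndex T % p = 1 % p := h4
      rw [h5, Nat.mod_eq_of_lt hp.one_lt]

end QS
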